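import Pool.Agent.TH649.SF.Fam

/-! Job 65 (S00557-F): a family of `p`-adic points through algebraic points. -/

set_option autoImplicit false

open Polynomial

namespace Pool.Agent.TH649.SF

section

variable {m : ℕ} {k A : Type} [Field k] [CharZero k] [IsAlgClosed k] [CommRing A] [IsDomain A]
  [Algebra (MvPolynomial (Fin m) k) A] [Module.IsTorsionFree (MvPolynomial (Fin m) k) A]
  [Algebra.IsIntegral (MvPolynomial (Fin m) k) A]

omit [IsAlgClosed k] in
/-- an algebraic point outside a hypersurface -/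
theorem exists_point (g : MvPolynomial (Fin m) k) (hg : g ≠ 0) :
    ∃ a : Fin m → ℤ, MvPolynomial.eval (fun i => (a i : k)) g ≠ 0 := by
  by_contra hcon
  push Not at hcon
  apply hg
  apply MvPolynomial.funext_set (fun _ : Fin m => Set.range (Int.cast : ℤ → k))
  · intro i
    exact Set.infinite_range_of_injective Int.cast_injective
  · intro x hx
    have h1 : ∀ i, ∃ n : ℤ, (n : k) = x i := fun i => hx i (Set.mem_univ i)
    choose a ha using h1
    have h2 : x = fun i => (a i : k) := by funext i; rw [ha]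
    rw [h2, hcon, map_zero]

/-- the data of the family -/
theorem exists_family (emb : ∀ X : Finset k, ∃ (p : ℕ) (_ : Fact p.Prime) (τ : k →+* Om p),
      ∀ x ∈ X, ∃ z : ℤ_[p], τ x = io p z)
    [Module.Finite (MvPolynomial (Fin m) k) A] (T : Finset A) :
    ∃ (p : ℕ) (_ : Fact p.Prime) (τ : k →+* Om p) (a : Fin m → ℤ)
      (h : (Fin m → ℤ_[p]) → (A →+* Om p)),
      (∀ β b, h β (algebraMap (MvPolynomial (Fin m) k) A b) =
        MvPolynomial.eval (io p ∘ tt (fun i => (a i : ℤ_[p])) β) (MvPolynomial.map τ b)) ∧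
      (∀ β, ∀ x ∈ T, ∃ y : ℤ_[p], h β x = io p y) ∧
      (∀ β β' (r : ℝ), 0 ≤ r → (∀ i, ‖β i - β' i‖ ≤ r) → ∀ x ∈ T, ∀ y y' : ℤ_[p],
        h β x = io p y → h β' x = io p y' → ‖y - y'‖ ≤ (p : ℝ) ^ (-2 : ℤ) * r) := by
  classical
  obtain ⟨θ, hθ⟩ := exists_prim (P := MvPolynomial (Fin m) k) (A := A)
  obtain ⟨d, w, hd0, hdw⟩ := exists_disc (P := MvPolynomial (Fin m) k) θ
  choose s Q hs0 hQ using hθ
  set M := minpoly (MvPolynomial (Fin m) k) θ with hM
  obtain ⟨a, ha⟩ := exists_point (d * ∏ x : T, s x)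
    (mul_ne_zero hd0 (Finset.prod_ne_zero_iff.2 fun x _ => hs0 x))
  rw [map_mul, map_prod] at ha
  have had := left_ne_zero_of_mul ha
  have has : ∀ x ∈ T, MvPolynomial.eval (fun i => (a i : k)) (s x) ≠ 0 := fun x hx =>
    (Finset.prod_ne_zero_iff.1 (right_ne_zero_of_mul ha)) ⟨x, hx⟩ (Finset.mem_univ _)
  obtain ⟨h0, hh0⟩ := ext_hom (B := MvPolynomial (Fin m) k) (A := A)
    (FaithfulSMul.algebraMap_injective _ _) (MvPolynomial.eval (fun i => (a i : k)))
  have hcomp0 : h0.comp (algebraMap (MvPolynomial (Fin m) k) A)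
      = MvPolynomial.eval (fun i => (a i : k)) := RingHom.ext hh0
  have hE0 : ∀ F : (MvPolynomial (Fin m) k)[X],
      h0 (aeval θ F) = E (fun i => (a i : k)) (h0 θ) F := by
    intro F
    rw [aeval_def, hom_eval₂, hcomp0]
    rfl
  set θ₀ : k := h0 θ with hθ₀
  have hroot0 : E (fun i => (a i : k)) θ₀ M = 0 := by
    rw [← hE0, hM, minpoly.aeval, map_zero]
  have hder0 : E (fun i => (a i : k)) θ₀ (derivative M) ≠ 0 := by
    intro h
    rw [← hE0] at h
    have h1 := congrArg h0 hdw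
    rw [map_mul, h, zero_mul, hh0] at h1
    exact had h1
  -- the embedding
  obtain ⟨p, hp, τ, hτ⟩ := emb (cf M ∪ T.biUnion (fun x => cf (Q x)) ∪
    T.biUnion (fun x => (s x).coeffs) ∪
    {θ₀, (E (fun i => (a i : k)) θ₀ (derivative M))⁻¹} ∪
    T.image (fun x => (MvPolynomial.eval (fun i => (a i : k)) (s x))⁻¹))
  obtain ⟨M', hM'⟩ := lift_poly τ M (fun x hx => hτ x (by simp [hx]))
  have hQ' : ∀ x ∈ T, ∃ Q' : (MvPolynomial (Fin m) ℤ_[p])[X],
      Q'.map (MvPolynomial.map (io p)) = (Q x).map (MvPolynomial.map τ) := fun x hx =>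
    lift_poly τ (Q x) (fun y hy => hτ y (by
      simp only [Finset.mem_union, Finset.mem_biUnion]
      exact Or.inl (Or.inl (Or.inl (Or.inr ⟨x, hx, hy⟩)))))
  have hs' : ∀ x ∈ T, ∃ s' : MvPolynomial (Fin m) ℤ_[p],
      MvPolynomial.map (io p) s' = MvPolynomial.map τ (s x) := fun x hx =>
    lift_mv τ (s x) (fun y hy => hτ y (by
      simp only [Finset.mem_union, Finset.mem_biUnion]
      exact Or.inl (Or.inl (Or.inr ⟨x, hx, hy⟩))))
  obtain ⟨θ', hθ'⟩ := hτ θ₀ (by simp)
  obtain ⟨u, hu⟩ := hτ (E (fun i => (a i : k)) θ₀ (derivative M))⁻¹ (by simp)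
  have hv : ∀ x ∈ T, ∃ z : ℤ_[p],
      τ (MvPolynomial.eval (fun i => (a i : k)) (s x))⁻¹ = io p z := fun x hx => hτ _ (by
    simp only [Finset.mem_union, Finset.mem_image]
    exact Or.inr ⟨x, hx, rfl⟩)
  set a' : Fin m → ℤ_[p] := fun i => (a i : ℤ_[p]) with ha'
  have hcast : (io p) ∘ a' = τ ∘ (fun i => (a i : k)) := by
    funext i
    simp [ha']
  have hEτ : ∀ (F : (MvPolynomial (Fin m) k)[X]) (F' : (MvPolynomial (Fin m) ℤ_[p])[X]),
      F'.map (MvPolynomial.map (io p)) = F.map (MvPolynomial.map τ) →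
      io p (E a' θ' F') = τ (E (fun i => (a i : k)) θ₀ F) := by
    intro F F' h
    rw [E_hom, E_hom, h, hcast, hθ']
  have h1 : E a' θ' M' = 0 := by
    apply io_inj p
    rw [hEτ M M' hM', hroot0, map_zero, map_zero]
  have h2 : ‖E a' θ' (derivative M')‖ = 1 := by
    have e1 : io p (E a' θ' (derivative M')) = τ (E (fun i => (a i : k)) θ₀ (derivative M)) := by
      apply hEτ
      rw [← derivative_map, ← derivative_map, hM']
    have e2 : E a' θ' (derivative M') * u = 1 := by
      apply io_inj p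
      rw [map_mul, e1, ← hu, ← map_mul, mul_inv_cancel₀ hder0, map_one, map_one]
    exact PadicInt.isUnit_iff.1 (IsUnit.of_mul_eq_one _ e2)
  obtain ⟨Θ, hΘ, -, hΘL⟩ := hensel_family M' a' θ' h1 h2
  -- the homomorphisms
  have hex : ∀ β : Fin m → ℤ_[p], ∃ h : A →+* Om p,
      (∀ b, h (algebraMap (MvPolynomial (Fin m) k) A b) =
        (MvPolynomial.eval (io p ∘ tt a' β)).comp (MvPolynomial.map τ) b) ∧
      h θ = io p (Θ β) := by
    intro β
    apply exists_hom_root
    rw [← hM, E_eval₂, ← hM', ← E_hom, hΘ, map_zero]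
  choose h hh hhθ using hex
  have hgen : ∀ β, ∀ x ∈ T, ∀ (Q' : (MvPolynomial (Fin m) ℤ_[p])[X])
      (s' : MvPolynomial (Fin m) ℤ_[p]),
      Q'.map (MvPolynomial.map (io p)) = (Q x).map (MvPolynomial.map τ) →
      MvPolynomial.map (io p) s' = MvPolynomial.map τ (s x) →
      io p (MvPolynomial.eval (tt a' β) s') * h β x = io p (E (tt a' β) (Θ β) Q') := by
    intro β x hx Q' s' hQ' hs'
    have e1 := congrArg (h β) (hQ x)
    rw [map_mul, hh] at e1
    have e2 : h β (aeval θ (Q x)) = io p (E (tt a' β) (Θ β) Q') := by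
      have hc : (h β).comp (algebraMap (MvPolynomial (Fin m) k) A)
          = (MvPolynomial.eval (io p ∘ tt a' β)).comp (MvPolynomial.map τ) := RingHom.ext (hh β)
      rw [aeval_def, hom_eval₂, hc, hhθ, E_eval₂, ← hQ', ← E_hom]
    have e3 : io p (MvPolynomial.eval (tt a' β) s')
        = ((MvPolynomial.eval (io p ∘ tt a' β)).comp (MvPolynomial.map τ)) (s x) := by
      rw [RingHom.comp_apply, ← hs', ← E_C (tt a' β) 0 s', E_hom, map_zero, Polynomial.map_C, E_C]
    rw [e3, e1, e2]
  have hunit : ∀ β, ∀ x ∈ T, ∀ (s' : MvPolynomial (Fin m) ℤ_[p]),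
      MvPolynomial.map (io p) s' = MvPolynomial.map τ (s x) →
      ‖MvPolynomial.eval (tt a' β) s'‖ = 1 := by
    intro β x hx s' hs'
    obtain ⟨z, hz⟩ := hv x hx
    have e1 : io p (MvPolynomial.eval a' s') = τ (MvPolynomial.eval (fun i => (a i : k)) (s x)) := by
      rw [← E_C a' 0 s', ← E_C (fun i => (a i : k)) 0 (s x), E_hom, E_hom, Polynomial.map_C,
        Polynomial.map_C, hs', hcast, map_zero, map_zero]
    have e2 : MvPolynomial.eval a' s' * z = 1 := by
      apply io_inj p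
      rw [map_mul, e1, ← hz, ← map_mul, mul_inv_cancel₀ (has x hx), map_one, map_one]
    have e3 : ‖MvPolynomial.eval a' s'‖ = 1 :=
      PadicInt.isUnit_iff.1 (IsUnit.of_mul_eq_one _ e2)
    refine norm_one_of_sub ?_ e3
    have e4 : E (tt a' β) 0 (C s') - E a' 0 (C s') ∈ ball p ((p : ℝ) ^ (-2 : ℤ)) (by positivity) :=
      E_congr _ (fun i => norm_tt_sub_a a' β i) (by simp) _
    rw [E_C, E_C] at e4
    exact lt_of_le_of_lt e4 pneg_lt
  refine ⟨p, hp, τ, a, h, fun β b => hh β b, fun β x hx => ?_, fun β β' r hr hβ x hx y y' hy hy' => ?_⟩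
  · obtain ⟨Q', hQ'⟩ := hQ' x hx
    obtain ⟨s', hs'⟩ := hs' x hx
    have e1 := hgen β x hx Q' s' hQ' hs'
    obtain ⟨v, hv⟩ := PadicInt.isUnit_iff.2 (hunit β x hx s' hs')
    refine ⟨(↑v⁻¹ : ℤ_[p]) * E (tt a' β) (Θ β) Q', ?_⟩
    rw [map_mul, ← e1, ← mul_assoc, ← map_mul, ← hv, Units.inv_mul, map_one, one_mul]
  · obtain ⟨Q', hQ'⟩ := hQ' x hx
    obtain ⟨s', hs'⟩ := hs' x hx
    have e1 := hgen β x hx Q' s' hQ' hs'
    have e2 := hgen β' x hx Q' s' hQ' hs'
    rw [hy, ← map_mul] at e1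
    rw [hy', ← map_mul] at e2
    have e1 := io_inj p e1
    have e2 := io_inj p e2
    have hp0 : (0 : ℝ) ≤ (p : ℝ) ^ (-2 : ℤ) * r := by positivity
    have htt : ∀ i, tt a' β i - tt a' β' i ∈ ball p ((p : ℝ) ^ (-2 : ℤ) * r) hp0 := by
      intro i
      rw [mem_ball, norm_tt_sub]
      exact mul_le_mul_of_nonneg_left (hβ i) (by positivity)
    have e3 : E (tt a' β) (Θ β) Q' - E (tt a' β') (Θ β') Q' ∈ ball p ((p : ℝ) ^ (-2 : ℤ) * r) hp0 :=
      E_congr _ htt (hΘL β β' r hr hβ) _
    have e4 : E (tt a' β) 0 (C s') - E (tt a' β') 0 (C s')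
        ∈ ball p ((p : ℝ) ^ (-2 : ℤ) * r) hp0 := E_congr _ htt (by simp) _
    rw [E_C, E_C] at e4
    rw [← e1, ← e2] at e3
    have e5 : MvPolynomial.eval (tt a' β) s' * (y - y')
        ∈ ball p ((p : ℝ) ^ (-2 : ℤ) * r) hp0 := by
      have : MvPolynomial.eval (tt a' β) s' * (y - y')
          = (MvPolynomial.eval (tt a' β) s' * y - MvPolynomial.eval (tt a' β') s' * y')
            - y' * (MvPolynomial.eval (tt a' β) s' - MvPolynomial.eval (tt a' β') s') := by ring
      rw [this]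
      exact Ideal.sub_mem _ e3 (Ideal.mul_mem_left _ _ e4)
    rw [mem_ball, norm_mul, hunit β x hx s' hs', one_mul] at e5
    exact e5

end

end Pool.Agent.TH649.SF

open Pool.Agent.TH649.SF in
/-- F (family of p-adic points through algebraic points). -/
theorem Pool.Agent.TH649.F (A : Type) [CommRing A] [IsDomain A] [Algebra (AlgebraicClosure ℚ) A]
    [Algebra.FiniteType (AlgebraicClosure ℚ) A] (R : Subring A)
    (hR : ∃ t : Finset A, R = Subring.closure (t : Set A)) :
    ∃ (p : ℕ) (_ : Fact p.Prime) (m : ℕ) (b : (Fin m → ℤ_[p]) → (R →+* ℤ_[p])),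
      (∀ β β' r, ‖b β r - b β' r‖ ≤ (p : ℝ) ^ (-2 : ℤ)) ∧
      (∀ r, Continuous fun β => b β r) ∧
      (∀ r, r ≠ 0 → ∀ U : Set (Fin m → ℤ_[p]), IsOpen U → U.Nonempty → ∃ β ∈ U, b β r ≠ 0) ∧
      (∀ n : Fin m → ℤ, ∃ b' : A →ₐ[AlgebraicClosure ℚ] AlgebraicClosure ℚ,
        ∀ r : R, b' (r : A) = 0 → b (fun i => (n i : ℤ_[p])) r = 0) := by
  classical
  obtain ⟨T, hT⟩ := hR
  obtain ⟨m, g, hg, hgi⟩ := exists_integral_inj_algHom_of_fg (AlgebraicClosure ℚ) A
  let _ : Algebra (MvPolynomial (Fin m) (AlgebraicClosure ℚ)) A := g.toRingHom.toAlgebra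
  have hst : IsScalarTower (AlgebraicClosure ℚ) (MvPolynomial (Fin m) (AlgebraicClosure ℚ)) A :=
    IsScalarTower.of_algebraMap_eq (fun x => (g.commutes x).symm)
  have hint : Algebra.IsIntegral (MvPolynomial (Fin m) (AlgebraicClosure ℚ)) A :=
    ⟨fun x => hgi x⟩
  have htf : Module.IsTorsionFree (MvPolynomial (Fin m) (AlgebraicClosure ℚ)) A := by
    rw [Module.isTorsionFree_iff_algebraMap_injective]
    exact hg
  have hft : Algebra.FiniteType (MvPolynomial (Fin m) (AlgebraicClosure ℚ)) A :=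
    Algebra.FiniteType.of_restrictScalars_finiteType (AlgebraicClosure ℚ) _ A
  have hfin : Module.Finite (MvPolynomial (Fin m) (AlgebraicClosure ℚ)) A :=
    Algebra.IsIntegral.finite
  obtain ⟨p, hp, τ, a, h, h1, h2, h3⟩ := exists_family (m := m) (k := AlgebraicClosure ℚ) (A := A)
    exists_emb T
  set a' : Fin m → ℤ_[p] := fun i => (a i : ℤ_[p]) with ha'
  -- values on `R`
  have hrange : ∀ β, ∀ r : R, ((h β).comp R.subtype) r ∈ (io p).range := by
    intro β r
    have : R ≤ (io p).range.comap (h β) := by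
      rw [hT, Subring.closure_le]
      intro x hx
      obtain ⟨y, hy⟩ := h2 β x hx
      exact ⟨y, hy.symm⟩
    exact this r.2
  let e : ℤ_[p] ≃+* (io p).range := RingEquiv.ofBijective (io p).rangeRestrict
    ⟨fun x y hxy => io_inj p (congrArg Subtype.val hxy), (io p).rangeRestrict_surjective⟩
  let b : (Fin m → ℤ_[p]) → (R →+* ℤ_[p]) := fun β =>
    (e.symm : (io p).range →+* ℤ_[p]).comp
      (((h β).comp R.subtype).codRestrict (io p).range (hrange β))
  have hb : ∀ β (r : R), io p (b β r) = h β r := by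
    intro β r
    have : ((e (b β r) : (io p).range) : Om p) = h β r := by
      show ((e (e.symm _) : (io p).range) : Om p) = h β r
      rw [RingEquiv.apply_symm_apply]
      rfl
    exact this
  -- Lipschitz estimate
  have hlip : ∀ β β' (r : ℝ), 0 ≤ r → (∀ i, ‖β i - β' i‖ ≤ r) → ∀ x : R,
      ‖b β x - b β' x‖ ≤ (p : ℝ) ^ (-2 : ℤ) * r := by
    intro β β' r hr hβ x
    have hp0 : (0 : ℝ) ≤ (p : ℝ) ^ (-2 : ℤ) * r := by positivity
    have key : ∀ y (hy : y ∈ Subring.closure (T : Set A)),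
        b β ⟨y, by rw [hT]; exact hy⟩ - b β' ⟨y, by rw [hT]; exact hy⟩
          ∈ ball p ((p : ℝ) ^ (-2 : ℤ) * r) hp0 := by
      intro y hy
      induction hy using Subring.closure_induction with
      | mem y hy =>
        have hyR : y ∈ R := by rw [hT]; exact Subring.subset_closure hy
        exact h3 β β' r hr hβ y hy _ _ (hb β ⟨y, hyR⟩).symm (hb β' ⟨y, hyR⟩).symm
      | zero =>
        have e1 : b β ⟨0, by rw [hT]; exact zero_mem _⟩ = 0 := map_zero (b β)
        have e2 : b β' ⟨0, by rw [hT]; exact zero_mem _⟩ = 0 := map_zero (b β')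
        rw [e1, e2, sub_zero]
        exact Ideal.zero_mem _
      | one =>
        have e1 : b β ⟨1, by rw [hT]; exact one_mem _⟩ = 1 := map_one (b β)
        have e2 : b β' ⟨1, by rw [hT]; exact one_mem _⟩ = 1 := map_one (b β')
        rw [e1, e2, sub_self]
        exact Ideal.zero_mem _
      | add y z hy hz ihy ihz =>
        have e1 : ∀ γ, b γ ⟨y + z, by rw [hT]; exact add_mem hy hz⟩
            = b γ ⟨y, by rw [hT]; exact hy⟩ + b γ ⟨z, by rw [hT]; exact hz⟩ :=
          fun γ => map_add (b γ) ⟨y, by rw [hT]; exact hy⟩ ⟨z, by rw [hT]; exact hz⟩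
        rw [e1, e1, add_sub_add_comm]
        exact Ideal.add_mem _ ihy ihz
      | neg y hy ihy =>
        have e1 : ∀ γ, b γ ⟨-y, by rw [hT]; exact neg_mem hy⟩
            = -b γ ⟨y, by rw [hT]; exact hy⟩ :=
          fun γ => map_neg (b γ) ⟨y, by rw [hT]; exact hy⟩
        rw [e1, e1, neg_sub_neg, ← neg_sub]
        exact Ideal.neg_mem_iff _ |>.2 ihy
      | mul y z hy hz ihy ihz =>
        have e1 : ∀ γ, b γ ⟨y * z, by rw [hT]; exact mul_mem hy hz⟩
            = b γ ⟨y, by rw [hT]; exact hy⟩ * b γ ⟨z, by rw [hT]; exact hz⟩ :=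
          fun γ => map_mul (b γ) ⟨y, by rw [hT]; exact hy⟩ ⟨z, by rw [hT]; exact hz⟩
        rw [e1, e1]
        have e2 : ∀ u v u' v' : ℤ_[p], u * v - u' * v' = u * (v - v') + v' * (u - u') := by
          intros; ring
        rw [e2]
        exact Ideal.add_mem _ (Ideal.mul_mem_left _ _ ihz) (Ideal.mul_mem_left _ _ ihy)
    have := key x.1 (by rw [← hT]; exact x.2)
    exact this
  refine ⟨p, hp, m, b, ?_, ?_, ?_, ?_⟩
  · intro β β' r
    have := hlip β β' 1 zero_le_one (fun i => PadicInt.norm_le_one _) r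
    rwa [mul_one] at this
  · intro x
    have hL : LipschitzWith 1 (fun β => b β x) := by
      refine LipschitzWith.of_dist_le_mul fun β β' => ?_
      rw [dist_eq_norm, NNReal.coe_one, one_mul]
      refine (hlip β β' (dist β β') dist_nonneg (fun i => ?_) x).trans ?_
      · rw [← dist_eq_norm]
        exact dist_le_pi_dist β β' i
      · have h4 := pneg_lt (p := p)
        have h5 := dist_nonneg (x := β) (y := β')
        nlinarith
    exact hL.continuous
  · intro r hr U hU hUne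
    by_contra hcon
    push Not at hcon
    obtain ⟨β₁, hβ₁⟩ := hUne
    obtain ⟨ε, hε, hball⟩ := Metric.isOpen_iff.1 hU β₁ hβ₁
    obtain ⟨s, hs0, c, hsc⟩ := exists_dvd (P := MvPolynomial (Fin m) (AlgebraicClosure ℚ))
      (r : A) (fun h0 => hr (Subtype.ext h0))
    apply hs0
    apply MvPolynomial.map_injective τ τ.injective
    rw [map_zero]
    apply MvPolynomial.funext_set
      (fun i : Fin m => (fun y : ℤ_[p] => io p (a' i + (p : ℤ_[p]) ^ 2 * y)) ''
        Metric.ball (β₁ i) ε)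
    · intro i
      refine (ball_infinite (β₁ i) hε).image ?_
      intro y _ y' _ hyy
      have e1 := add_left_cancel (io_inj p hyy)
      have hp0 : (p : ℤ_[p]) ^ 2 ≠ 0 :=
        pow_ne_zero _ (Nat.cast_ne_zero.2 hp.out.ne_zero)
      exact mul_left_cancel₀ hp0 e1
    · intro x hx
      have e1 : ∀ i, ∃ y ∈ Metric.ball (β₁ i) ε, io p (a' i + (p : ℤ_[p]) ^ 2 * y) = x i :=
        fun i => hx i (Set.mem_univ i)
      choose β hβ hβx using e1
      have hβU : β ∈ U := hball ((dist_pi_lt_iff hε).2 fun i => hβ i)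
      have e2 : x = io p ∘ tt a' β := by
        funext i
        rw [← hβx]
        rfl
      have e3 := h1 β s
      rw [hsc, map_mul, ← hb, hcon β hβU, map_zero, zero_mul] at e3
      rw [e2, ← e3, map_zero]
  · intro n
    let β : Fin m → ℤ_[p] := fun i => (n i : ℤ_[p])
    let N : Fin m → AlgebraicClosure ℚ := fun i => ((a i + p ^ 2 * n i : ℤ) : AlgebraicClosure ℚ)
    have hN : io p ∘ tt a' β = τ ∘ N := by
      funext i
      simp only [Function.comp_apply, tt, a', β, N, map_intCast]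
      rw [← map_intCast (io p)]
      congr 1
      push_cast
      ring
    have hφ : ∀ c : MvPolynomial (Fin m) (AlgebraicClosure ℚ),
        h β (algebraMap _ A c) = τ (MvPolynomial.eval N c) := by
      intro c
      rw [h1, hN]
      have : ((MvPolynomial.eval (τ ∘ N)).comp (MvPolynomial.map τ) :
          MvPolynomial (Fin m) (AlgebraicClosure ℚ) →+* Om p)
          = τ.comp (MvPolynomial.eval N) := by
        apply MvPolynomial.ringHom_ext
        · intro r; simp
        · intro i; simp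
      exact congrArg (fun f => f c) this
    let _ : Algebra (AlgebraicClosure ℚ) (Om p) := τ.toAlgebra
    let H : A →ₐ[AlgebraicClosure ℚ] Om p :=
      { h β with
        commutes' := fun c => by
          show h β (algebraMap (AlgebraicClosure ℚ) A c) = τ c
          rw [IsScalarTower.algebraMap_apply (AlgebraicClosure ℚ)
            (MvPolynomial (Fin m) (AlgebraicClosure ℚ)) A, hφ]
          simp }
    have hH : ∀ x, H x = h β x := fun x => rfl
    have hHint : Algebra.IsIntegral (AlgebraicClosure ℚ) H.range := by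
      constructor
      rintro ⟨_, x, rfl⟩
      obtain ⟨F, hF, hFx⟩ := Algebra.IsIntegral.isIntegral
        (R := MvPolynomial (Fin m) (AlgebraicClosure ℚ)) x
      refine ⟨F.map (MvPolynomial.eval N), hF.map _, ?_⟩
      apply Subtype.val_injective
      rw [eval₂_map]
      have e1 := congrArg (h β) hFx
      rw [hom_eval₂, map_zero] at e1
      have e2 : (h β).comp (algebraMap (MvPolynomial (Fin m) (AlgebraicClosure ℚ)) A)
          = τ.comp (MvPolynomial.eval N) := RingHom.ext hφ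
      rw [e2] at e1
      have e3 := hom_eval₂ F ((algebraMap (AlgebraicClosure ℚ) H.range).comp
        (MvPolynomial.eval N)) (H.range.val : H.range →+* Om p) ⟨H x, ⟨x, rfl⟩⟩
      exact e3.trans e1
    have hbij := IsAlgClosed.algebraMap_bijective_of_isIntegral (k := AlgebraicClosure ℚ)
      (K := H.range)
    let e' : AlgebraicClosure ℚ ≃ₐ[AlgebraicClosure ℚ] H.range :=
      AlgEquiv.ofBijective (Algebra.ofId _ _) hbij
    refine ⟨(e'.symm : H.range →ₐ[AlgebraicClosure ℚ] AlgebraicClosure ℚ).comp H.rangeRestrict,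
      fun r hr => ?_⟩
    have e1 : H.rangeRestrict (r : A) = 0 := by
      have : e'.symm (H.rangeRestrict (r : A)) = 0 := hr
      exact (map_eq_zero_iff _ e'.symm.injective).1 this
    have e2 : h β r = 0 := congrArg Subtype.val e1
    apply io_inj p
    rw [hb, map_zero]
    exact e2
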