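import Pool.Agent.TH649.KG.Div

/-! Job 119 (KG-E): the exactness bound. -/

set_option autoImplicit false

open scoped Manifold ContDiff Topology ComplexConjugate MatrixGroups UpperHalfPlane Matrix
open MeasureTheory Set Filter

namespace Pool.Agent.TH649.KG

open Pool.Agent.W549.CY (Cn dz dzbar HermitianMetric chernRicci chernScalar)
open Pool.Agent.W711.KC (jj nn jj_ne im_mob det_eq)
open Pool.Agent.TH598.KG

/-- the box `T × {|u₁| ≤ r} × {|u₂| ≤ r}` -/
def box (T : Set ℂ) (r : ℝ) : Set (Cn 3) :=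
  Set.pi Set.univ (fun i : Fin 3 => if i = 0 then T else Metric.closedBall 0 r)

theorem mem_box {T : Set ℂ} {r : ℝ} {p : Cn 3} :
    p ∈ box T r ↔ p 0 ∈ T ∧ ‖p 1‖ ≤ r ∧ ‖p 2‖ ≤ r := by
  simp [box, Set.mem_pi, Fin.forall_fin_succ]

theorem isCompact_box {T : Set ℂ} (hT : IsCompact T) (r : ℝ) : IsCompact (box T r) := by
  apply isCompact_univ_pi
  intro i
  split_ifs
  · exact hT
  · exact isCompact_closedBall _ _

theorem volume_box {T : Set ℂ} {r : ℝ} (hr : 0 ≤ r) :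
    (volume (box T r)).toReal = (volume T).toReal * (Real.pi * r ^ 2) ^ 2 := by
  rw [box, volume_pi_pi, Fin.prod_univ_three]
  simp only [if_true, Fin.isValue, one_ne_zero, if_false, Fin.reduceEq, Complex.volume_closedBall]
  rw [ENNReal.toReal_mul, ENNReal.toReal_mul, ENNReal.toReal_mul, ENNReal.toReal_pow,
    ENNReal.toReal_ofReal hr]
  simp
  ring

/-- bounds on the support of the cutoff -/
theorem exists_bounds {T : Set ℂ} (hT : IsCompact T) (hT' : T ⊆ {z | 0 < z.im}) :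
    ∃ y0 y1 : ℝ, 0 < y0 ∧ 0 < y1 ∧ ∀ z ∈ T, y0 ≤ z.im ∧ z.im ≤ y1 := by
  rcases T.eq_empty_or_nonempty with h | h
  · exact ⟨1, 1, one_pos, one_pos, fun z hz => by rw [h] at hz; exact hz.elim⟩
  · obtain ⟨z0, hz0, h0⟩ := hT.exists_isMinOn h Complex.continuous_im.continuousOn
    obtain ⟨z1, hz1, h1⟩ := hT.exists_isMaxOn h Complex.continuous_im.continuousOn
    exact ⟨z0.im, z1.im, hT' hz0, hT' hz1, fun z hz => ⟨h0 hz, h1 hz⟩⟩

theorem mem_box_of {T : Set ℂ} {y1 R : ℝ} (hR : 0 ≤ R)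
    (hy : ∀ z ∈ T, z.im ≤ y1) {p : Cn 3} (hp : p ∈ UU) (hpT : p 0 ∈ T) (hs : ss p ≤ 2 * R) :
    p ∈ box T √(2 * R * y1) := by
  have hy0 : 0 < (p 0).im := hp
  have h1 : nsq p ≤ 2 * R * y1 := by
    have : nsq p = ss p * (p 0).im := by
      unfold ss; field_simp
    rw [this]
    have h2 := hy _ hpT
    have h3 : 0 ≤ ss p := div_nonneg (nsq_nonneg p) hy0.le
    calc ss p * (p 0).im ≤ (2 * R) * (p 0).im := mul_le_mul_of_nonneg_right hs hy0.le
      _ ≤ 2 * R * y1 := mul_le_mul_of_nonneg_left h2 (by positivity)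
  have h2 := Complex.normSq_nonneg (p 1)
  have h3 := Complex.normSq_nonneg (p 2)
  unfold nsq at h1
  refine mem_box.2 ⟨hpT, ?_, ?_⟩
  · apply Real.le_sqrt_of_sq_le
    rw [← Complex.normSq_eq_norm_sq]
    linarith
  · apply Real.le_sqrt_of_sq_le
    rw [← Complex.normSq_eq_norm_sq]
    linarith

theorem det_g0_le {p : Cn 3} (hp : p ∈ UU) {y0 R : ℝ} (hy0 : 0 < y0) (hy : y0 ≤ (p 0).im)
    (hR : 0 < R) (hs : R ≤ ss p) : (g0 p).det.re ≤ 1 / (2 * y0 ^ 4 * R ^ 3) := by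
  have hyp : 0 < (p 0).im := hp
  have hN := Nn_pos hp
  have h0 := nsq_nonneg p
  have h1 : (g0 p).det.re = ((p 0).im + 2 * nsq p) / (4 * (p 0).im * Nn p ^ 4) := by
    rw [det_g0 hp]
    have : (((p 0).im + 2 * nsq p : ℝ) : ℂ) / (4 * ((p 0).im : ℂ) * (Nn p : ℂ) ^ 4)
        = ((((p 0).im + 2 * nsq p) / (4 * (p 0).im * Nn p ^ 4) : ℝ) : ℂ) := by push_cast; rfl
    rw [this, Complex.ofReal_re]
  rw [h1]
  have hNle : (p 0).im + 2 * nsq p ≤ 2 * Nn p := by unfold Nn; linarith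
  have hNge : y0 * R ≤ Nn p := by
    have e : nsq p = ss p * (p 0).im := by unfold ss; field_simp
    have e2 : R * y0 ≤ ss p * (p 0).im := mul_le_mul hs hy hy0.le (by linarith)
    unfold Nn
    rw [e]
    nlinarith
  calc ((p 0).im + 2 * nsq p) / (4 * (p 0).im * Nn p ^ 4)
      ≤ (2 * Nn p) / (4 * (p 0).im * Nn p ^ 4) := by gcongr
    _ = 1 / (2 * (p 0).im * Nn p ^ 3) := by field_simp; ring
    _ ≤ 1 / (2 * y0 * (y0 * R) ^ 3) := by gcongr
    _ = 1 / (2 * y0 ^ 4 * R ^ 3) := by congr 1; ring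

theorem det_g0_nonneg {p : Cn 3} (hp : p ∈ UU) : 0 ≤ (g0 p).det.re := by
  have hyp : 0 < (p 0).im := hp
  have hN := Nn_pos hp
  have h0 := nsq_nonneg p
  rw [det_g0 hp]
  have : (((p 0).im + 2 * nsq p : ℝ) : ℂ) / (4 * ((p 0).im : ℂ) * (Nn p : ℂ) ^ 4)
      = ((((p 0).im + 2 * nsq p) / (4 * (p 0).im * Nn p ^ 4) : ℝ) : ℂ) := by push_cast; rfl
  rw [this, Complex.ofReal_re]
  positivity

end Pool.Agent.TH649.KG

open Pool.Agent.W549.CY (Cn dz dzbar HermitianMetric chernRicci chernScalar) in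
open Pool.Agent.W711.KC (jj nn) in
open Pool.Agent.TH598.KG Pool.Agent.TH649.KG in
theorem Pool.Agent.TH649.exact_bound {Γ : Subgroup SL(2, ℝ)} {φ : ℂ → ℝ} (hφ : Cutoff Γ φ)
    (hS3 : ∀ (V : Fin 3 → Cn 3 → ℂ), (∀ j, ContDiffOn ℝ 1 (V j) UU) →
      (∀ g ∈ Γ, ∀ p ∈ UU, V 0 (Fa g p) = jj g (p 0) ^ 2 * conj (jj g (p 0)) ^ 4 * V 0 p) →
      ∀ R : ℝ, (∀ p ∈ UU, R ≤ ss p → ∀ j, V j p = 0) →
      ∫ p in UU, (φ (p 0) : ℂ) * ∑ j, dz j (V j) p = 0)
    (hDD : ∃ K : ℝ, 0 ≤ K ∧ ∀ (g a b : M3) (c η : Cn 3) (cc cη ca cb : ℝ),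
      g.IsHermitian → (∀ v : Cn 3, v ≠ 0 → 0 < (hf g v).re) → a.IsHermitian → b.IsHermitian →
      0 ≤ cc → 0 ≤ cη → 0 ≤ ca → 0 ≤ cb →
      (∀ v : Cn 3, ‖∑ j, c j * v j‖ ^ 2 ≤ cc ^ 2 * (hf g v).re) →
      (∀ v : Cn 3, ‖∑ k, η k * conj (v k)‖ ^ 2 ≤ cη ^ 2 * (hf g v).re) →
      (∀ v, |(hf a v).re| ≤ ca * (hf g v).re) → (∀ v, |(hf b v).re| ≤ cb * (hf g v).re) →
      ‖DD (Matrix.of fun j k => c j * η k) a b‖ ≤ K * cc * cη * ca * cb * g.det.re) :
    ∃ K : ℝ, 0 ≤ K ∧ ∀ (a b : Cn 3 → M3) (η : Fin 3 → Cn 3 → ℂ) (Ca Cb Cη : ℝ),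
      0 ≤ Ca → 0 ≤ Cb → 0 ≤ Cη →
      (∀ j k, ContDiffOn ℝ 1 (fun p => a p j k) UU) → (∀ j k, ContDiffOn ℝ 1 (fun p => b p j k) UU) →
      (∀ k, ContDiffOn ℝ 1 (η k) UU) →
      (∀ p ∈ UU, (a p).IsHermitian) → (∀ p ∈ UU, (b p).IsHermitian) →
      Equi Γ a → Equi Γ b → Equi01 Γ η → Bdd a Ca → Bdd b Cb →
      (∀ p ∈ UU, ∀ v : Cn 3, ‖∑ k, η k p * conj (v k)‖ ^ 2 ≤ Cη ^ 2 * (hf (g0 p) v).re) →
      (∀ p ∈ UU, ∀ k, ∑ j, dz j (fun q => padj (a q) (b q) k j) p = 0) →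
      ∀ R : ℝ, 1 ≤ R →
        ‖∫ p in UU, (φ (p 0) : ℂ) * ((chi (ss p / R) : ℂ) *
          DD (Matrix.of fun j k => dz j (η k) p) (a p) (b p))‖ ≤ K * Ca * Cb * Cη / √R := by
  classical
  obtain ⟨K0, hK0, hDD⟩ := hDD
  obtain ⟨M, hM0, hM⟩ := exists_chi_bound
  set T : Set ℂ := tsupport φ with hT
  have hTc : IsCompact T := hφ.compact
  obtain ⟨y0, y1, hy0, hy1, hy⟩ := exists_bounds hTc hφ.supp
  obtain ⟨B, hB⟩ := hφ.smooth.continuous.bounded_above_of_compact_support hφ.compact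
  have hB0 : 0 ≤ B := (norm_nonneg _).trans (hB 0)
  set C0 : ℝ := B * K0 * (M * √18) * (1 / (2 * y0 ^ 4)) * ((volume T).toReal * (Real.pi * (2 * y1)) ^ 2)
    with hC0
  refine ⟨C0, by positivity, ?_⟩
  intro a b η Ca Cb Cη hCa hCb hCη ha hb hη haH hbH haE hbE hηE haB hbB hηB hdiv R hR
  have hR0 : 0 < R := by linarith
  have hφ0 : ∀ z, z ∉ T → φ z = 0 := fun z hz => image_eq_zero_of_notMem_tsupport hz
  set F1 : Cn 3 → ℂ := fun p => (φ (p 0) : ℂ) * ((chi (ss p / R) : ℂ) *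
          DD (Matrix.of fun j k => dz j (η k) p) (a p) (b p)) with hF1
  set c : Cn 3 → Cn 3 := fun p j => dz j (fun q => ((chi (ss q / R) : ℝ) : ℂ)) p with hc
  set F2 : Cn 3 → ℂ := fun p => (φ (p 0) : ℂ) *
          DD (Matrix.of fun j k => c p j * η k p) (a p) (b p) with hF2
  set r : ℝ := √(2 * R * y1) with hr
  have hboxc : IsCompact (box T r) := isCompact_box hTc r
  have hboxU : box T r ⊆ UU := fun p hp => hφ.supp (mem_box.1 hp).1
  have hUm : MeasurableSet UU := isOpen_UU.measurableSet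
  -- `c` vanishes outside `R ≤ s ≤ 2 R`
  have hc0 : ∀ p ∈ UU, (ss p < R ∨ 2 * R < ss p) → ∀ j, c p j = 0 := by
    intro p hp h j
    have hd : deriv chi (ss p / R) = 0 := by
      rcases h with h | h
      · exact deriv_chi_of_lt ((div_lt_one hR0).2 h)
      · exact deriv_chi_of_gt (by rw [lt_div_iff₀ hR0]; exact h)
    simp only [hc, dz, (hasFDerivAt_cut hp R).fderiv, hd]
    simp
  have hcut0 : ∀ p, 2 * R ≤ ss p → chi (ss p / R) = 0 := by
    intro p h
    exact chi_of_ge (by rw [le_div_iff₀ hR0]; exact h)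
  -- Stokes
  have hst := hS3 (fun j q => ((chi (ss q / R) : ℝ) : ℂ) * WW a b η j q)
    (fun j => (contDiffOn_cut R).mul (contDiffOn_WW ha hb hη j))
    (fun g hg p hp => by
      show ((chi (ss (Fa g p) / R) : ℝ) : ℂ) * WW a b η 0 (Fa g p) = _
      rw [ss_Fa g hp, WW_equi haE hbE hηE hg hp]
      ring) (2 * R)
    (fun p _ h j => by
      show ((chi (ss p / R) : ℝ) : ℂ) * WW a b η j p = 0
      rw [hcut0 p h]; simp)
  have hsplit : ∀ p ∈ UU, (φ (p 0) : ℂ) * ∑ j, dz j (fun q => ((chi (ss q / R) : ℝ) : ℂ) *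
      WW a b η j q) p = F1 p + F2 p := by
    intro p hp
    rw [div_cut ha hb hη hdiv R hp, hF1, hF2, hc]
    ring
  rw [setIntegral_congr_fun hUm hsplit] at hst
  -- vanishing outside of the box
  have hout : ∀ p ∈ UU \ box T r, p 0 ∉ T ∨ 2 * R < ss p := by
    rintro p ⟨hp, hpb⟩
    by_contra hcon
    push Not at hcon
    exact hpb (mem_box_of hR0.le (fun z hz => (hy z hz).2) hp hcon.1 hcon.2)
  have hF1o : ∀ p ∈ UU \ box T r, F1 p = 0 := by
    intro p hp
    rcases hout p hp with h | h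
    · simp [hF1, hφ0 _ h]
    · simp [hF1, hcut0 p h.le]
  have hF2o : ∀ p ∈ UU \ box T r, F2 p = 0 := by
    intro p hp
    rcases hout p hp with h | h
    · simp [hF2, hφ0 _ h]
    · have h0 := hc0 p hp.1 (Or.inr h)
      simp only [hF2, h0, zero_mul, DD_eq, Matrix.of_apply, Finset.sum_const_zero, mul_zero]
  -- integrability
  have hφc : ContinuousOn (fun p : Cn 3 => (φ (p 0) : ℂ)) UU :=
    (Complex.continuous_ofReal.comp (hφ.smooth.continuous.comp (continuous_apply 0))).continuousOn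
  have hcc : ∀ j, ContinuousOn (fun p => c p j) UU := fun j => continuousOn_dz (contDiffOn_cut R) j
  have hF1c : ContinuousOn F1 UU := by
    refine hφc.mul ((contDiffOn_cut R).continuousOn.mul ?_)
    simp only [DD_eq, Matrix.of_apply]
    exact continuousOn_finsetSum _ fun j _ => continuousOn_finsetSum _ fun k _ =>
      (continuousOn_dz (hη k) j).mul (contDiffOn_padj ha hb k j).continuousOn
  have hF2c : ContinuousOn F2 UU := by
    refine hφc.mul ?_
    simp only [DD_eq, Matrix.of_apply]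
    exact continuousOn_finsetSum _ fun j _ => continuousOn_finsetSum _ fun k _ =>
      ((hcc j).mul (hη k).continuousOn).mul (contDiffOn_padj ha hb k j).continuousOn
  have hF1i : IntegrableOn F1 UU :=
    ((hF1c.mono hboxU).integrableOn_compact hboxc).of_forall_sdiff_eq_zero hUm hF1o
  have hF2i : IntegrableOn F2 UU :=
    ((hF2c.mono hboxU).integrableOn_compact hboxc).of_forall_sdiff_eq_zero hUm hF2o
  rw [integral_add hF1i hF2i] at hst
  have hneg : ∫ p in UU, F1 p = -∫ p in UU, F2 p := eq_neg_of_add_eq_zero_left hst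
  rw [hneg, norm_neg, setIntegral_eq_of_subset_of_forall_sdiff_eq_zero hUm hboxU hF2o]
  -- the bound
  set bd : ℝ := B * (K0 * (M * √(18 * R)) * Cη * Ca * Cb * (1 / (2 * y0 ^ 4 * R ^ 3))) with hbd
  have hbound : ∀ p ∈ box T r, ‖F2 p‖ ≤ bd := by
    intro p hpb
    have hp := hboxU hpb
    have hyp : 0 < (p 0).im := hp
    have hbd0 : 0 ≤ bd := by positivity
    by_cases hsR : R ≤ ss p ∧ ss p ≤ 2 * R
    · obtain ⟨hs1, hs2⟩ := hsR
      have hs0 : 0 ≤ ss p := hR0.le.trans hs1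
      have h1 := hDD (g0 p) (a p) (b p) (c p) (fun k => η k p) (M * √(18 * R)) Cη Ca Cb
        (g0_herm p) (fun v hv => g0_pos hp hv) (haH p hp) (hbH p hp) (by positivity) hCη hCa hCb
        (fun v => by
          have e1 := sum_dz_cut hp R v
          have e2 : ∑ j, c p j * v j = _ := e1
          rw [e2, norm_mul, mul_pow, ← Complex.normSq_eq_norm_sq (_ / _)]
          have hg := grad_bound hp v
          have hnn : 0 ≤ (hf (g0 p) v).re := by
            by_cases hv : v = 0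
            · rw [hv]; simp [hf]
            · exact (g0_pos hp hv).le
          have e3 : ‖((deriv chi (ss p / R) / R : ℝ) : ℂ)‖ ≤ M / R := by
            rw [Complex.norm_real, Real.norm_eq_abs, abs_div, abs_of_pos hR0]
            exact div_le_div_of_nonneg_right (hM _) hR0.le
          have e4 : ‖((deriv chi (ss p / R) / R : ℝ) : ℂ)‖ ^ 2 ≤ (M / R) ^ 2 :=
            pow_le_pow_left₀ (norm_nonneg _) e3 2
          have e5 : ss p * (1 + ss p) ^ 2 ≤ (2 * R) * (3 * R) ^ 2 := by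
            have : 1 + ss p ≤ 3 * R := by linarith
            gcongr
          have e6 : (M * √(18 * R)) ^ 2 = (M / R) ^ 2 * ((2 * R) * (3 * R) ^ 2) := by
            rw [mul_pow, Real.sq_sqrt (by positivity)]
            field_simp
            ring
          rw [e6, mul_assoc]
          refine mul_le_mul e4 (hg.trans ?_) (Complex.normSq_nonneg _) (by positivity)
          exact mul_le_mul_of_nonneg_right e5 hnn)
        (fun v => hηB p hp v) (fun v => haB p hp v) (fun v => hbB p hp v)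
      have h2 := det_g0_le hp hy0 (hy _ (mem_box.1 hpb).1).1 hR0 hs1
      rw [hF2, norm_mul]
      refine mul_le_mul ?_ (h1.trans ?_) (norm_nonneg _) hB0
      · rw [Complex.norm_real]; exact hB _
      · exact mul_le_mul_of_nonneg_left h2 (by positivity)
    · have h0 : ∀ j, c p j = 0 := by
        apply hc0 p hp
        by_contra hcon
        push Not at hcon
        exact hsR hcon
      have : F2 p = 0 := by
        simp only [hF2, h0, zero_mul, DD_eq, Matrix.of_apply, Finset.sum_const_zero, mul_zero]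
      rw [this, norm_zero]
      exact hbd0
  have hvol := norm_setIntegral_le_of_norm_le_const (μ := volume) hboxc.measure_lt_top hbound
  refine hvol.trans (le_of_eq ?_)
  rw [Measure.real, volume_box (Real.sqrt_nonneg _), Real.sq_sqrt (by positivity), hbd, hC0,
    Real.sqrt_mul (by norm_num)]
  have hsR : √R * √R = R := Real.mul_self_sqrt hR0.le
  have hsR0 : √R ≠ 0 := (Real.sqrt_pos.2 hR0).ne'
  have e : √R / R ^ 3 * R ^ 2 = 1 / √R := by
    have h3 : √R / R ^ 3 * R ^ 2 = √R / R := by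
      field_simp
    rw [h3]
    nth_rewrite 2 [← hsR]
    field_simp
  calc _ = (B * K0 * (M * √18) * (1 / (2 * y0 ^ 4)) * ((volume T).toReal *
        (Real.pi * (2 * y1)) ^ 2) * Ca * Cb * Cη) * (√R / R ^ 3 * R ^ 2) := by
        field_simp
    _ = _ := by rw [e]; field_simp
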