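import Pool.Agent.TH649.KG.Grad
import Pool.Agent.TH649.J119

/-! Job 257 (KG-I): the Chern-Ricci form differs from `ρ₀` by an exact form. -/

set_option autoImplicit false

open scoped Manifold ContDiff Topology ComplexConjugate MatrixGroups UpperHalfPlane Matrix
open MeasureTheory Set Filter

namespace Pool.Agent.TH649.KG

open Pool.Agent.W549.CY (Cn dz dzbar HermitianMetric chernRicci chernScalar)
open Pool.Agent.W711.KC (jj nn jj_ne im_mob det_eq)
open Pool.Agent.TH598.KG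

/-- the dominating function -/
noncomputable def dom (T : Set ℂ) (p : Cn 3) : ℝ :=
  ∏ i : Fin 3, (if i = 0 then T.indicator (fun _ => (1 : ℝ)) else
    fun u : ℂ => ((1 : ℝ) + ‖u‖ ^ 2) ^ (-(3 : ℝ) / 2)) (p i)

theorem integrable_dom {T : Set ℂ} (hT : IsCompact T) : Integrable (dom T) := by
  unfold dom
  refine Integrable.fintype_prod (f := fun i : Fin 3 => if i = 0 then
    T.indicator (fun _ => (1 : ℝ)) else fun u : ℂ => ((1 : ℝ) + ‖u‖ ^ 2) ^ (-(3 : ℝ) / 2))
    (μ := fun _ => volume) fun i => ?_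
  split_ifs
  · exact (integrable_indicator_iff hT.measurableSet).2 (integrableOn_const hT.measure_lt_top.ne)
  · exact integrable_rpow_neg_one_add_norm_sq (by rw [Complex.finrank_real_complex]; norm_num)

theorem dom_eq {T : Set ℂ} {p : Cn 3} (h : p 0 ∈ T) :
    dom T p = ((1 : ℝ) + ‖p 1‖ ^ 2) ^ (-(3 : ℝ) / 2) * ((1 : ℝ) + ‖p 2‖ ^ 2) ^ (-(3 : ℝ) / 2) := by
  simp [dom, Fin.prod_univ_three, h]

theorem det_g0_dom {T : Set ℂ} {y0 : ℝ} (hy0 : 0 < y0) (hy : ∀ z ∈ T, y0 ≤ z.im) {p : Cn 3}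
    (hp : p ∈ UU) (h : p 0 ∈ T) :
    (g0 p).det.re ≤ 1 / (2 * y0 * (min y0 1) ^ 3) * dom T p := by
  have hyp : 0 < (p 0).im := hp
  have hN := Nn_pos hp
  have h0 := nsq_nonneg p
  have hyy := hy _ h
  set m := min y0 1 with hm
  have hm0 : 0 < m := lt_min hy0 one_pos
  have h1 : (g0 p).det.re = ((p 0).im + 2 * nsq p) / (4 * (p 0).im * Nn p ^ 4) := by
    rw [det_g0 hp]
    have : (((p 0).im + 2 * nsq p : ℝ) : ℂ) / (4 * ((p 0).im : ℂ) * (Nn p : ℂ) ^ 4)
        = ((((p 0).im + 2 * nsq p) / (4 * (p 0).im * Nn p ^ 4) : ℝ) : ℂ) := by push_cast; rfl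
    rw [this, Complex.ofReal_re]
  set A := 1 + ‖p 1‖ ^ 2 with hA
  set B := 1 + ‖p 2‖ ^ 2 with hB
  have hA1 : 1 ≤ A := by rw [hA]; nlinarith [sq_nonneg ‖p 1‖]
  have hB1 : 1 ≤ B := by rw [hB]; nlinarith [sq_nonneg ‖p 2‖]
  have hA0 : 0 < A := by linarith
  have hB0 : 0 < B := by linarith
  have hns : nsq p = ‖p 1‖ ^ 2 + ‖p 2‖ ^ 2 := by
    unfold nsq
    rw [Complex.normSq_eq_norm_sq, Complex.normSq_eq_norm_sq]
  have hNge : m * √(A * B) ≤ Nn p := by
    have h2 : √(A * B) ≤ 1 + nsq p := by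
      apply Real.sqrt_le_iff.2
      refine ⟨by linarith, ?_⟩
      have e : 1 + nsq p = A + B - 1 := by rw [hns, hA, hB]; ring
      rw [e]
      nlinarith
    calc m * √(A * B) ≤ m * (1 + nsq p) := mul_le_mul_of_nonneg_left h2 hm0.le
      _ = m + m * nsq p := by ring
      _ ≤ (p 0).im + 1 * nsq p := by
          have e1 : m ≤ (p 0).im := (min_le_left _ _).trans hyy
          have e2 : m ≤ 1 := min_le_right _ _
          have e3 := mul_le_mul_of_nonneg_right e2 h0
          linarith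
      _ = Nn p := by unfold Nn; ring
  have hdom : dom T p = 1 / √(A * B) ^ 3 := by
    rw [dom_eq h, ← hA, ← hB, ← Real.mul_rpow hA0.le hB0.le, Real.sqrt_eq_rpow, ← Real.rpow_natCast,
      ← Real.rpow_mul (by positivity), one_div, ← Real.rpow_neg (by positivity)]
    norm_num
  have hsq : 0 < √(A * B) := Real.sqrt_pos.2 (by positivity)
  rw [h1, hdom]
  have hNle : (p 0).im + 2 * nsq p ≤ 2 * Nn p := by unfold Nn; linarith
  calc ((p 0).im + 2 * nsq p) / (4 * (p 0).im * Nn p ^ 4)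
      ≤ (2 * Nn p) / (4 * (p 0).im * Nn p ^ 4) := by gcongr
    _ = 1 / (2 * (p 0).im * Nn p ^ 3) := by field_simp; ring
    _ ≤ 1 / (2 * y0 * (m * √(A * B)) ^ 3) := by gcongr
    _ = 1 / (2 * y0 * m ^ 3) * (1 / √(A * B) ^ 3) := by
        rw [mul_pow]; field_simp

/-- a function on the chart bounded by `det g₀` is integrable against the cutoff. -/
theorem integrableOn_of_le {φ : ℂ → ℝ} (hφ : Continuous φ) (hφc : HasCompactSupport φ)
    (hs : tsupport φ ⊆ {z | 0 < z.im}) {f : Cn 3 → ℂ} (hf : ContinuousOn f UU) {C : ℝ}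
    (hb : ∀ p ∈ UU, ‖f p‖ ≤ C * (g0 p).det.re) :
    IntegrableOn (fun p => (φ (p 0) : ℂ) * f p) UU := by
  set T : Set ℂ := tsupport φ with hT
  have hTc : IsCompact T := hφc
  obtain ⟨y0, y1, hy0, hy1, hy⟩ := exists_bounds hTc hs
  obtain ⟨B, hB⟩ := hφ.bounded_above_of_compact_support hφc
  have hB0 : 0 ≤ B := (norm_nonneg _).trans (hB 0)
  have hφ0 : ∀ z, z ∉ T → φ z = 0 := fun z hz => image_eq_zero_of_notMem_tsupport hz
  have hUm : MeasurableSet UU := isOpen_UU.measurableSet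
  have hφc' : ContinuousOn (fun p : Cn 3 => (φ (p 0) : ℂ)) UU :=
    (Complex.continuous_ofReal.comp (hφ.comp (continuous_apply 0))).continuousOn
  have hd := ((integrable_dom hTc).const_mul (B * |C| * (1 / (2 * y0 * (min y0 1) ^ 3)))).integrableOn
    (s := UU)
  refine Integrable.mono' hd ((hφc'.mul hf).aestronglyMeasurable hUm) ?_
  refine (ae_restrict_iff' hUm).2 (Filter.Eventually.of_forall fun p hp => ?_)
  by_cases hpT : p 0 ∈ T
  · have h1 := det_g0_dom hy0 (fun z hz => (hy z hz).1) hp hpT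
    have h2 := det_g0_nonneg hp
    rw [norm_mul, Complex.norm_real]
    calc ‖φ (p 0)‖ * ‖f p‖ ≤ B * (|C| * (g0 p).det.re) := by
          refine mul_le_mul (hB _) ((hb p hp).trans ?_) (norm_nonneg _) hB0
          exact mul_le_mul_of_nonneg_right (le_abs_self C) h2
      _ ≤ B * (|C| * (1 / (2 * y0 * (min y0 1) ^ 3) * dom T p)) := by gcongr
      _ = _ := by ring
  · have : dom T p = 0 := by simp [dom, Fin.prod_univ_three, hpT]
    rw [this]
    simp [hφ0 _ hpT]

theorem padj_self (a : M3) : padj a a = (2 : ℂ) • a.adjugate := by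
  unfold padj
  have h2 : a + a = (2 : ℂ) • a := by rw [two_smul]
  rw [h2, Matrix.adjugate_smul]
  simp only [Fintype.card_fin]
  ext i j
  simp only [Matrix.sub_apply, Matrix.smul_apply, smul_eq_mul]
  ring

theorem DD_scalar {x a : M3} (h : a.det ≠ 0) : DD x a a = 2 * a.det * (a⁻¹ * x).trace := by
  unfold DD
  rw [padj_self, Matrix.inv_def, Ring.inverse_eq_inv', Matrix.smul_mul, Matrix.mul_smul,
    Matrix.trace_smul, Matrix.trace_smul, smul_eq_mul, smul_eq_mul, Matrix.trace_mul_comm x]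
  field_simp

theorem DD_sub_left (x x' a b : M3) : DD (x - x') a b = DD x a b - DD x' a b := by
  unfold DD
  rw [Matrix.sub_mul, Matrix.trace_sub]

theorem contDiffOn_chernRicci {a : Cn 3 → M3} (ha : ∀ j k, ContDiffOn ℝ ∞ (fun p => a p j k) UU)
    (hh : ∀ p ∈ UU, (a p).IsHermitian)
    (hpos : ∀ p ∈ UU, ∀ v : Cn 3, v ≠ 0 → 0 < (hf (a p) v).re) (j k : Fin 3) :
    ContDiffOn ℝ ∞ (fun p => chernRicci a p j k) UU :=
  (contDiffOn_dz (contDiffOn_dzbar (contDiffOn_ofReal (contDiffOn_log_det ha hh hpos)) k) j).neg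

theorem continuousOn_DD {x a b : Cn 3 → M3} (hx : ∀ j k, ContinuousOn (fun p => x p j k) UU)
    (ha : ∀ j k, ContDiffOn ℝ 1 (fun p => a p j k) UU)
    (hb : ∀ j k, ContDiffOn ℝ 1 (fun p => b p j k) UU) :
    ContinuousOn (fun p => DD (x p) (a p) (b p)) UU := by
  simp only [DD_eq]
  exact continuousOn_finsetSum _ fun j _ => continuousOn_finsetSum _ fun k _ =>
    (hx j k).mul (contDiffOn_padj ha hb k j).continuousOn

theorem chi_le_one (x : ℝ) : |chi x| ≤ 1 := by
  unfold chi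
  rw [abs_of_nonneg (Real.smoothTransition.nonneg _)]
  exact Real.smoothTransition.le_one _

end Pool.Agent.TH649.KG

open Pool.Agent.W549.CY (Cn dz dzbar HermitianMetric chernRicci chernScalar) in
open Pool.Agent.W711.KC (jj nn) in
open Pool.Agent.TH598.KG Pool.Agent.TH649.KG in
/-- The Chern-Ricci form of `a` differs from `ρ₀` by an exact form. `hEX` is `exact_bound`. -/
theorem Pool.Agent.TH649.ricci_exact {Γ : Subgroup SL(2, ℝ)} {φ : ℂ → ℝ} (hφ : Cutoff Γ φ)
    (hEX : ∃ K : ℝ, 0 ≤ K ∧ ∀ (a b : Cn 3 → M3) (η : Fin 3 → Cn 3 → ℂ) (Ca Cb Cη : ℝ),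
      0 ≤ Ca → 0 ≤ Cb → 0 ≤ Cη →
      (∀ j k, ContDiffOn ℝ 1 (fun p => a p j k) UU) → (∀ j k, ContDiffOn ℝ 1 (fun p => b p j k) UU) →
      (∀ k, ContDiffOn ℝ 1 (η k) UU) →
      (∀ p ∈ UU, (a p).IsHermitian) → (∀ p ∈ UU, (b p).IsHermitian) →
      Equi Γ a → Equi Γ b → Equi01 Γ η → Bdd a Ca → Bdd b Cb →
      (∀ p ∈ UU, ∀ v : Cn 3, ‖∑ k, η k p * conj (v k)‖ ^ 2 ≤ Cη ^ 2 * (hf (g0 p) v).re) →
      (∀ p ∈ UU, ∀ k, ∑ j, dz j (fun q => padj (a q) (b q) k j) p = 0) →
      ∀ R : ℝ, 1 ≤ R →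
        ‖∫ p in UU, (φ (p 0) : ℂ) * ((chi (ss p / R) : ℂ) *
          DD (Matrix.of fun j k => dz j (η k) p) (a p) (b p))‖ ≤ K * Ca * Cb * Cη / √R)
    {a : Cn 3 → M3} {C CF CS : ℝ} (ha : ∀ j k, ContDiffOn ℝ ∞ (fun p => a p j k) UU)
    (hh : ∀ p ∈ UU, (a p).IsHermitian) (hpos : ∀ p ∈ UU, ∀ v : Cn 3, v ≠ 0 → 0 < (hf (a p) v).re)
    (heq : Equi Γ a) (hb : Bdd a C)
    (hdiv : ∀ p ∈ UU, ∀ k, ∑ j, dz j (fun q => padj (a q) (a q) k j) p = 0)
    (hF : ∀ p ∈ UU, ∀ v : Cn 3,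
      (fderiv ℝ (fun q => Real.log (a q).det.re - Real.log (g0 q).det.re) p v) ^ 2 ≤
        CF * (hf (g0 p) v).re)
    (hS : ∀ p ∈ UU, ‖chernScalar a p‖ ≤ CS) :
    IntegrableOn (fun p => φ (p 0) * ((a p).det.re * (chernScalar a p).re)) UU ∧
    IntegrableOn (fun p => φ (p 0) * (a p).det.re) UU ∧
    ∫ p in UU, φ (p 0) * (2 * (a p).det.re * (chernScalar a p).re) = (Phi φ a a).re := by
  classical
  have hUm : MeasurableSet UU := isOpen_UU.measurableSet
  -- constants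
  obtain ⟨K, hK0, hEX⟩ := hEX
  obtain ⟨K1, hK1, hDD⟩ := Pool.Agent.TH343.J117.DD_bound
  have hp1 : (![Complex.I, 0, 0] : Cn 3) ∈ UU := by
    show 0 < ((![Complex.I, 0, 0] : Cn 3) 0).im
    simp
  have hC0 : 0 ≤ C := by
    have h1 := hb _ hp1 (Pi.single 0 1)
    have hv : (Pi.single 0 1 : Cn 3) ≠ 0 := by
      intro h
      have := congrFun h 0
      simp at this
    have h2 := g0_pos hp1 hv
    have h3 := abs_nonneg (hf (a ![Complex.I, 0, 0]) (Pi.single 0 1)).re
    by_contra hcon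
    push Not at hcon
    nlinarith
  have hCS0 : 0 ≤ CS := (norm_nonneg _).trans (hS _ hp1)
  have ha1 : ∀ j k, ContDiffOn ℝ 1 (fun p => a p j k) UU := fun j k =>
    (ha j k).of_le (by exact_mod_cast le_top)
  -- the determinant
  have hdet : ∀ p ∈ UU, (a p).det.im = 0 ∧ 0 < (a p).det.re ∧
      ‖(a p).det‖ ≤ K1 / 6 * C ^ 3 * (g0 p).det.re := by
    intro p hp
    obtain ⟨d, hd, hd'⟩ := det_pos_of (hh _ hp) (hpos _ hp)
    refine ⟨by rw [hd', Complex.ofReal_im], by rw [hd', Complex.ofReal_re]; exact hd, ?_⟩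
    have h1 := hDD (g0 p) (a p) (a p) (a p) C C C (g0_herm p) (fun v hv => g0_pos hp hv) (hh p hp)
      (hh p hp) (hh p hp) hC0 hC0 hC0 (hb p hp) (hb p hp) (hb p hp)
    rw [Pool.Agent.TH343.J117.DD_self, norm_mul] at h1
    have h6 : ‖(6 : ℂ)‖ = 6 := by simp
    rw [h6] at h1
    nlinarith
  have hrho : ∀ p ∈ UU, ‖DD (rho0 p) (a p) (a p)‖ ≤ K1 * 4 * C * C * (g0 p).det.re := by
    intro p hp
    exact hDD (g0 p) (rho0 p) (a p) (a p) 4 C C (g0_herm p) (fun v hv => g0_pos hp hv)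
      (rho0_herm p) (hh p hp) (hh p hp) (by norm_num) hC0 hC0 (bdd_rho0 p hp) (hb p hp) (hb p hp)
  have hscal : ∀ p ∈ UU, DD (chernRicci a p) (a p) (a p) = 2 * (a p).det * chernScalar a p := by
    intro p hp
    have h0 : (a p).det ≠ 0 := by
      intro h
      have := (hdet p hp).2.1
      rw [h] at this
      simp at this
    exact DD_scalar h0
  -- continuity
  have hRc : ∀ j k, ContinuousOn (fun p => chernRicci a p j k) UU := fun j k =>
    (contDiffOn_chernRicci ha hh hpos j k).continuousOn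
  have hdc : ContinuousOn (fun p => (a p).det) UU := (contDiffOn_det ha).continuousOn
  have hDRc : ContinuousOn (fun p => DD (chernRicci a p) (a p) (a p)) UU :=
    continuousOn_DD hRc ha1 ha1
  have hD0c : ContinuousOn (fun p => DD (rho0 p) (a p) (a p)) UU :=
    continuousOn_DD (fun j k => (contDiffOn_rho0 j k).continuousOn) ha1 ha1
  have hdRb : ∀ p ∈ UU, ‖DD (chernRicci a p) (a p) (a p)‖ ≤
      (2 * (K1 / 6 * C ^ 3) * CS) * (g0 p).det.re := by
    intro p hp
    rw [hscal p hp, norm_mul, norm_mul]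
    have h1 := (hdet p hp).2.2
    have h2 := hS p hp
    have h3 : ‖(2 : ℂ)‖ = 2 := by simp
    have h4 := det_g0_nonneg hp
    rw [h3]
    calc 2 * ‖(a p).det‖ * ‖chernScalar a p‖ ≤ 2 * (K1 / 6 * C ^ 3 * (g0 p).det.re) * CS := by
          gcongr
      _ = _ := by ring
  -- integrability
  have hφc := hφ.smooth.continuous
  have i1 := integrableOn_of_le hφc hφ.compact hφ.supp hDRc hdRb
  have i2 := integrableOn_of_le hφc hφ.compact hφ.supp hD0c hrho
  have i3 := integrableOn_of_le hφc hφ.compact hφ.supp hdc (fun p hp => (hdet p hp).2.2)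
  have er : ∀ p ∈ UU, ((φ (p 0) : ℂ) * DD (chernRicci a p) (a p) (a p)).re =
      φ (p 0) * (2 * (a p).det.re * (chernScalar a p).re) := by
    intro p hp
    rw [hscal p hp, Complex.re_ofReal_mul]
    congr 1
    have h1 : (a p).det = (((a p).det.re : ℝ) : ℂ) := by
      apply Complex.ext
      · simp
      · simp [(hdet p hp).1]
    have e : 2 * (a p).det * chernScalar a p = ((2 * (a p).det.re : ℝ) : ℂ) * chernScalar a p := by
      push_cast
      rw [← h1]
    rw [e, Complex.re_ofReal_mul]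
  have i1' : IntegrableOn (fun p => φ (p 0) * (2 * (a p).det.re * (chernScalar a p).re)) UU :=
    (integrableOn_congr_fun er hUm).1 i1.re
  refine ⟨?_, ?_, ?_⟩
  · have := i1'.const_mul (1 / 2)
    refine (integrableOn_congr_fun (fun p _ => ?_) hUm).1 this
    ring
  · refine (integrableOn_congr_fun (fun p _ => ?_) hUm).1 i3.re
    exact Complex.re_ofReal_mul _ _
  -- the limit
  set G : Cn 3 → ℂ := fun p => (φ (p 0) : ℂ) * DD (chernRicci a p) (a p) (a p) -
    (φ (p 0) : ℂ) * DD (rho0 p) (a p) (a p) with hG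
  have iG : IntegrableOn G UU := i1.sub i2
  have hη1 : ∀ k, ContDiffOn ℝ 1 (et a k) UU := fun k =>
    ((contDiffOn_dzbar (contDiffOn_ofReal (contDiffOn_Fp ha hh hpos)) k).neg).of_le
      (by exact_mod_cast le_top)
  have hηE : Equi01 Γ (et a) := equi01_of_inv
    (fun p hp => ((contDiffOn_Fp ha hh hpos).differentiableOn (by norm_num) p hp).differentiableAt
      (isOpen_UU.mem_nhds hp)) (fun g hg p hp => Fp_Fa hh hpos heq hg hp)
  have hlim : ∀ n : ℕ, ‖∫ p in UU, (chi (ss p / ((n : ℝ) + 1)) : ℂ) * G p‖ ≤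
      K * C * C * √(|CF| + 1) / √((n : ℝ) + 1) := by
    intro n
    have h1 := hEX a a (et a) C C (√(|CF| + 1)) hC0 hC0 (Real.sqrt_nonneg _) ha1 ha1 hη1 hh hh
      heq heq hηE hb hb (fun p hp v => et_bound ha hh hpos hF hp v) hdiv ((n : ℝ) + 1)
      (by have : (0 : ℝ) ≤ n := Nat.cast_nonneg n
          linarith)
    refine (le_of_eq ?_).trans h1
    congr 1
    refine setIntegral_congr_fun hUm fun p hp => ?_
    have e : (Matrix.of fun j k => dz j (et a k) p) = chernRicci a p - rho0 p := by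
      ext j k
      rw [Matrix.of_apply, Matrix.sub_apply, dz_et ha hh hpos hp]
    simp only [hG]
    rw [e, DD_sub_left]
    ring
  have ht1 : Tendsto (fun n : ℕ => ∫ p in UU, (chi (ss p / ((n : ℝ) + 1)) : ℂ) * G p) atTop (𝓝 0) := by
    refine squeeze_zero_norm hlim ?_
    have h1 : Tendsto (fun n : ℕ => √((n : ℝ) + 1)) atTop atTop :=
      Real.tendsto_sqrt_atTop.comp (tendsto_atTop_add_const_right _ _ tendsto_natCast_atTop_atTop)
    exact h1.const_div_atTop _
  have ht2 : Tendsto (fun n : ℕ => ∫ p in UU, (chi (ss p / ((n : ℝ) + 1)) : ℂ) * G p) atTop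
      (𝓝 (∫ p in UU, G p)) := by
    refine tendsto_integral_of_dominated_convergence (fun p => ‖G p‖) ?_ iG.norm ?_ ?_
    · intro n
      have hc : ContinuousOn (fun p => ((chi (ss p / ((n : ℝ) + 1)) : ℝ) : ℂ)) UU :=
        (contDiffOn_cut ((n : ℝ) + 1)).continuousOn
      exact (hc.aestronglyMeasurable hUm).mul iG.aestronglyMeasurable
    · intro n
      refine Filter.Eventually.of_forall fun p => ?_
      rw [norm_mul, Complex.norm_real, Real.norm_eq_abs]
      calc |chi (ss p / ((n : ℝ) + 1))| * ‖G p‖ ≤ 1 * ‖G p‖ :=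
            mul_le_mul_of_nonneg_right (chi_le_one _) (norm_nonneg _)
        _ = ‖G p‖ := one_mul _
    · refine Filter.Eventually.of_forall fun p => ?_
      refine tendsto_const_nhds.congr' ?_
      obtain ⟨N, hN⟩ := exists_nat_ge (ss p)
      filter_upwards [Filter.eventually_ge_atTop N] with n hn
      have hn' : (N : ℝ) ≤ n := by exact_mod_cast hn
      have : chi (ss p / ((n : ℝ) + 1)) = 1 := by
        apply chi_of_le
        have h0 : (0 : ℝ) < (n : ℝ) + 1 := by positivity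
        rw [div_le_one h0]
        linarith
      rw [this, Complex.ofReal_one, one_mul]
  have hG0 : ∫ p in UU, G p = 0 := tendsto_nhds_unique ht2 ht1
  rw [hG, integral_sub i1 i2] at hG0
  have hEq : ∫ p in UU, (φ (p 0) : ℂ) * DD (chernRicci a p) (a p) (a p) = Phi φ a a :=
    sub_eq_zero.1 hG0
  rw [← hEq, ← setIntegral_congr_fun hUm er]
  exact integral_re i1
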