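import Pool.Agent.TH649.SE.Integ

/-! The signed volume of a top-dimensional Lipschitz cycle vanishes (job 58). -/

set_option autoImplicit false

open MeasureTheory
open scoped NNReal

namespace Pool.Agent.TH649.SE

open Pool.Agent.TH630

variable {n m : ℕ}

theorem bary_mem_std {x : Fin n → ℝ} (hx : x ∈ corner n) : bary x ∈ stdSimplex ℝ (Fin (n + 1)) :=
  ⟨fun i => (mem_corner_iff x).1 hx i, sum_bary x⟩

theorem param_of_mem {p : ℕ} (σ : LipSimplex p n) {x : Fin n → ℝ} (hx : x ∈ corner n) :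
    σ.param x = σ.toFun ⟨bary x, bary_mem_std hx⟩ := by
  rw [LipSimplex.param, dif_pos (bary_mem_std hx)]

theorem param_lipOn {p : ℕ} (σ : LipSimplex p n) :
    ∃ K : ℝ≥0, LipschitzOnWith K σ.param (corner n) := by
  obtain ⟨K, hK⟩ := σ.lip
  refine ⟨K * ((n : ℝ≥0) + 1), LipschitzOnWith.of_dist_le_mul fun x hx y hy => ?_⟩
  rw [param_of_mem σ hx, param_of_mem σ hy]
  refine (hK.dist_le_mul _ _).trans ?_
  push_cast
  rw [mul_assoc]
  refine mul_le_mul_of_nonneg_left ?_ K.2
  rw [Subtype.dist_eq]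
  have hn : (0 : ℝ) ≤ n := Nat.cast_nonneg n
  refine (dist_pi_le_iff (mul_nonneg (by linarith) dist_nonneg)).2 fun i => ?_
  rw [Real.dist_eq]
  exact abs_bary_sub x y i

/-- the cone of a simplex of codimension one with apex the origin -/
noncomputable def coneMap {p : ℕ} (τ : LipSimplex p m) (t : Fin (m + 1) → ℝ) : Fin p → ℝ :=
  open Classical in
  if h : (∑ k, t k)⁻¹ • t ∈ stdSimplex ℝ (Fin (m + 1)) then
    (∑ k, t k) • τ.toFun ⟨(∑ k, t k)⁻¹ • t, h⟩ else 0

/-- the signed volume of the cone -/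
noncomputable def W (τ : LipSimplex (m + 1) m) : ℝ :=
  ∫ t in corner (m + 1), (fderiv ℝ (coneMap τ) t).det

theorem coneg_comp_Amap (σ : LipSimplex (m + 1) (m + 1))
    {f : (Fin (m + 1) → ℝ) → (Fin (m + 1) → ℝ)} (hf : Set.EqOn σ.param f (corner (m + 1)))
    (i : Fin (m + 2)) {t : Fin (m + 1) → ℝ} (ht : t ∈ corner (m + 1)) :
    (coneg f ∘ Amap i) t = coneMap (σ.face i) t := by
  rw [Function.comp_apply]
  have hq : q (Amap i t) = ∑ k, t k := q_Amap ht.1 i
  rw [coneg_of_le (by rw [hq]; exact ht.2), coneG, hq]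
  rcases (Finset.sum_nonneg fun k (_ : k ∈ Finset.univ) => ht.1 k).eq_or_lt with h0 | hpos
  · rw [← h0, zero_smul, coneMap, dif_neg]
    rintro ⟨-, h2⟩
    rw [← h0] at h2
    simp at h2
  · have hstd : (∑ k, t k)⁻¹ • t ∈ stdSimplex ℝ (Fin (m + 1)) := by
      refine ⟨fun k => ?_, ?_⟩
      · simp only [Pi.smul_apply, smul_eq_mul]
        exact mul_nonneg (inv_nonneg.2 hpos.le) (ht.1 k)
      · simp only [Pi.smul_apply, smul_eq_mul]
        rw [← Finset.mul_sum, inv_mul_cancel₀ hpos.ne']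
    rw [coneMap, dif_pos hstd]
    congr 1
    have hqp : 0 < q (Amap i t) := by rw [hq]; exact hpos
    have hmem : proj (Amap i t) ∈ corner (m + 1) := (q_le_one_iff _).1 (q_proj hqp).le
    rw [← hf hmem, param_of_mem σ hmem]
    have hb : bary (proj (Amap i t)) = i.insertNth (0 : ℝ) ((∑ k, t k)⁻¹ • t) := by
      funext k
      rw [proj, bary_ray, bary_Amap, hq]
      have hN := n1 (m + 1)
      have hs := hpos.ne'
      have e : (i.insertNth (0 : ℝ) ((∑ k, t k)⁻¹ • t) : Fin (m + 2) → ℝ) k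
          = (∑ k, t k)⁻¹ * (i.insertNth (0 : ℝ) t : Fin (m + 2) → ℝ) k := by
        refine Fin.succAboveCases i ?_ (fun j => ?_) k
        · simp
        · simp
      rw [e]
      generalize (i.insertNth (0 : ℝ) t : Fin (m + 2) → ℝ) k = b
      generalize (∑ k, t k) = s at hs ⊢
      field_simp
      ring
    show σ.toFun _ = σ.toFun (faceMap i ⟨_, hstd⟩)
    congr 1
    exact Subtype.ext hb

theorem sgnVol_eq_sum
    (hL0 : ∀ f g : (Fin (m + 1) → ℝ) → (Fin (m + 1) → ℝ), LocallyLipschitz f →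
      LocallyLipschitz g → ∀ S : Set (Fin (m + 1) → ℝ), IsCompact S → (∀ x, x ∉ S → f x = g x) →
      Integrable (fun x => (fderiv ℝ f x).det - (fderiv ℝ g x).det) ∧
        ∫ x, ((fderiv ℝ f x).det - (fderiv ℝ g x).det) = 0)
    (σ : LipSimplex (m + 1) (m + 1)) :
    sgnVol σ = ∑ i : Fin (m + 2), (-1) ^ (i : ℕ) * W (σ.face i) := by
  obtain ⟨K, hK⟩ := param_lipOn σ
  obtain ⟨f, hfL, hf⟩ := hK.extend_pi
  have hg := coneg_lip hfL
  have h1 : sgnVol σ = ∫ x in corner (m + 1), (fderiv ℝ f x).det :=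
    integral_congr_corner hf
  obtain ⟨hint, hzero⟩ := hL0 f (coneg f) hfL.locallyLipschitz hg.locallyLipschitz
    (corner (m + 1)) isCompact_corner (fun x hx => by
      rw [coneg_of_ge]
      rw [← q_le_one_iff] at hx
      exact (not_le.1 hx).le)
  have h2 : ∫ x in corner (m + 1), ((fderiv ℝ f x).det - (fderiv ℝ (coneg f) x).det) = 0 := by
    rw [setIntegral_eq_integral_of_forall_compl_eq_zero, hzero]
    intro x hx
    have : f =ᶠ[nhds x] coneg f := by
      filter_upwards [isClosed_corner.isOpen_compl.mem_nhds hx] with y hy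
      rw [coneg_of_ge]
      have : ¬ q y ≤ 1 := fun h => hy ((q_le_one_iff _).1 h)
      exact (not_le.1 this).le
    rw [this.fderiv_eq, sub_self]
  have hif := integrableOn_det hfL (isCompact_corner (n := m + 1))
  have hig := integrableOn_det hg (isCompact_corner (n := m + 1))
  rw [integral_sub hif hig] at h2
  rw [h1, sub_eq_zero.1 h2, integral_corner_eq_sum hig]
  refine Finset.sum_congr rfl fun i _ => ?_
  rw [integral_piece, W]
  congr 1
  exact integral_congr_corner fun t ht => coneg_comp_Amap σ hf i ht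

end Pool.Agent.TH649.SE

open Pool.Agent.TH630 in
theorem Pool.Agent.TH649.sgnVolChain_eq_zero {m : ℕ}
    (hL0 : ∀ f g : (Fin (m + 1) → ℝ) → (Fin (m + 1) → ℝ), LocallyLipschitz f →
      LocallyLipschitz g → ∀ S : Set (Fin (m + 1) → ℝ), IsCompact S → (∀ x, x ∉ S → f x = g x) →
      Integrable (fun x => (fderiv ℝ f x).det - (fderiv ℝ g x).det) ∧
        ∫ x, ((fderiv ℝ f x).det - (fderiv ℝ g x).det) = 0)
    (c : Chain (m + 1) (m + 1)) (hc : bdry c = 0) : sgnVolChain c = 0 := by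
  have h1 : sgnVolChain c
      = (bdry c).sum fun τ a => (a : ℝ) * Pool.Agent.TH649.SE.W τ := by
    rw [bdry, Finsupp.sum_sum_index (by intro a; simp) (by intro a b₁ b₂; push_cast; ring)]
    rw [sgnVolChain]
    refine Finsupp.sum_congr fun σ _ => ?_
    rw [← Finsupp.sum_finsetSum_index (by intro a; simp) (by intro a b₁ b₂; push_cast; ring)]
    rw [Pool.Agent.TH649.SE.sgnVol_eq_sum hL0 σ, Finset.mul_sum]
    refine Finset.sum_congr rfl fun i _ => ?_
    rw [Finsupp.sum_single_index (by simp)]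
    push_cast
    ring
  rw [h1, hc, Finsupp.sum_zero_index]
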