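import Mathlib

/-!
A 6-regular self-complementary graph on 13 vertices all of whose isomorphisms onto the complement
have a cycle of length 8.
-/

set_option autoImplicit false

namespace Pool.Agent.TH649.Kotzig

/-- adjacency rows (bit masks) of a 6-regular self-complementary graph on 13 vertices -/
def row (i : ℕ) : ℕ :=
  [846, 6497, 3129, 5765, 996, 6422, 3219, 5720, 1587, 4505, 2508, 5222, 2730].getD i 0

/-- adjacency -/
def A (i j : ℕ) : Bool := (row i).testBit j

/-- the graph -/
def G : SimpleGraph (Fin 13) where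
  Adj i j := A i.val j.val = true
  symm := ⟨by decide +kernel⟩
  loopless := ⟨by decide +kernel⟩

instance : DecidableRel G.Adj := fun i j => inferInstanceAs (Decidable (A i.val j.val = true))

theorem deg6 : G.IsRegularOfDegree 6 := by
  have h : ∀ v : Fin 13, G.degree v = 6 := by decide +kernel
  exact h

/-- `p` lists the images of `k-1, …, 0`; may `x` be the image of `k = p.length`? -/
def compat : List ℕ → ℕ → ℕ → Bool
  | [], _, _ => true
  | y :: p, k, x => (x != y) && (A x y == !(A k p.length)) && compat p k x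

/-- the value at `i` of the partial map `p` -/
def val (p : List ℕ) (i : ℕ) : ℕ := p.getD (p.length - 1 - i) 13

/-- every completion of `p` by `m` further values has a point of period exactly 8 -/
def srch : ℕ → List ℕ → Bool
  | 0, p => (List.range 13).any fun i =>
      let j := val p (val p (val p (val p i)))
      (j != i) && (val p (val p (val p (val p j))) == i)
  | m + 1, p => (List.range 13).all fun x => !(compat p p.length x) || srch m (x :: p)

/-- the list of the images of `k-1, …, 0` -/
def lst (f : ℕ → ℕ) : ℕ → List ℕ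
  | 0 => []
  | k + 1 => f k :: lst f k

theorem lst_length (f : ℕ → ℕ) (k : ℕ) : (lst f k).length = k := by
  induction k with
  | zero => rfl
  | succ k ih => simp [lst, ih]

theorem lst_getD (f : ℕ → ℕ) (k i : ℕ) (h : i < k) : (lst f k).getD (k - 1 - i) 13 = f i := by
  induction k with
  | zero => omega
  | succ k ih =>
    rcases Nat.lt_or_ge i k with h1 | h1
    · have : k + 1 - 1 - i = (k - 1 - i) + 1 := by omega
      rw [this, lst, List.getD_cons_succ]
      exact ih h1
    · have : i = k := by omega
      subst this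
      simp [lst]

theorem val_lst (f : ℕ → ℕ) (k i : ℕ) (h : i < k) : val (lst f k) i = f i := by
  unfold val
  rw [lst_length]
  exact lst_getD f k i h

theorem compat_lst (f : ℕ → ℕ) (k x : ℕ) (j : ℕ) (hj : j ≤ k)
    (h1 : ∀ i < j, x ≠ f i) (h2 : ∀ i < j, A x (f i) = !(A k i)) :
    compat (lst f j) k x = true := by
  induction j with
  | zero => rfl
  | succ j ih =>
    simp only [lst, compat, Bool.and_eq_true, bne_iff_ne, ne_eq, beq_iff_eq, lst_length]
    exact ⟨⟨h1 j (by omega), h2 j (by omega)⟩,
      ih (by omega) (fun i hi => h1 i (by omega)) (fun i hi => h2 i (by omega))⟩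

theorem srch_sound (f : ℕ → ℕ) (hlt : ∀ i < 13, f i < 13)
    (hinj : ∀ i < 13, ∀ j < 13, i ≠ j → f i ≠ f j)
    (hadj : ∀ i < 13, ∀ j < 13, i ≠ j → A (f i) (f j) = !(A i j)) :
    ∀ m k, m + k = 13 → srch m (lst f k) = true →
      ∃ i < 13, f (f (f (f i))) ≠ i ∧ f (f (f (f (f (f (f (f i))))))) = i := by
  intro m
  induction m with
  | zero =>
    intro k hk hs
    have hk' : k = 13 := by omega
    subst hk'
    simp only [srch, List.any_eq_true, List.mem_range, Bool.and_eq_true, bne_iff_ne, ne_eq,
      beq_iff_eq] at hs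
    obtain ⟨i, hi, h1, h2⟩ := hs
    have e : val (lst f 13) (val (lst f 13) (val (lst f 13) (val (lst f 13) i)))
        = f (f (f (f i))) := by
      rw [val_lst f 13 i hi, val_lst f 13 _ (hlt _ hi), val_lst f 13 _ (hlt _ (hlt _ hi)),
        val_lst f 13 _ (hlt _ (hlt _ (hlt _ hi)))]
    have h4 : f (f (f (f i))) < 13 := hlt _ (hlt _ (hlt _ (hlt _ hi)))
    rw [e] at h1 h2
    rw [val_lst f 13 _ h4, val_lst f 13 _ (hlt _ h4), val_lst f 13 _ (hlt _ (hlt _ h4)),
      val_lst f 13 _ (hlt _ (hlt _ (hlt _ h4)))] at h2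
    exact ⟨i, hi, h1, h2⟩
  | succ m ih =>
    intro k hk hs
    simp only [srch, List.all_eq_true, List.mem_range, Bool.or_eq_true, Bool.not_eq_true'] at hs
    have := hs (f k) (hlt k (by omega))
    rw [lst_length] at this
    rcases this with h | h
    · rw [compat_lst f k (f k) k le_rfl
        (fun i hi => hinj k (by omega) i (by omega) (by omega))
        (fun i hi => hadj k (by omega) i (by omega) (by omega))] at h
      exact absurd h (by simp)
    · exact ih (k + 1) (by omega) h

theorem srch_true : srch 13 [] = true := by decide +kernel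

/-- an isomorphism onto the complement -/
def sig : Equiv.Perm (Fin 13) where
  toFun i := [1, 2, 3, 4, 5, 6, 7, 0, 9, 10, 11, 8, 12].getD i.val 0
  invFun i := [7, 0, 1, 2, 3, 4, 5, 6, 11, 8, 9, 10, 12].getD i.val 0
  left_inv := by intro i; revert i; decide +kernel
  right_inv := by intro i; revert i; decide +kernel

theorem sig_rel : ∀ i j : Fin 13, (A (sig i).val (sig j).val = false ∧ sig i ≠ sig j) ↔
    A i.val j.val = true := by
  decide +kernel

/-- `G` is self-complementary -/
def iso : G ≃g Gᶜ where
  toEquiv := sig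
  map_rel_iff' := by
    intro i j
    rw [SimpleGraph.compl_adj]
    have := sig_rel i j
    constructor
    · rintro ⟨h1, h2⟩
      apply this.1
      refine ⟨?_, h1⟩
      have : ¬ (A (sig i).val (sig j).val = true) := h2
      simpa using this
    · intro h
      obtain ⟨h1, h2⟩ := this.2 h
      refine ⟨h2, ?_⟩
      change ¬ (A (sig i).val (sig j).val = true)
      simp [h1]

/-- every isomorphism of `G` onto its complement has a vertex of period exactly 8 -/
theorem period (σ : G ≃g Gᶜ) :
    ∃ v : Fin 13, σ (σ (σ (σ v))) ≠ v ∧ σ (σ (σ (σ (σ (σ (σ (σ v))))))) = v := by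
  let f : ℕ → ℕ := fun i => if h : i < 13 then (σ ⟨i, h⟩).val else 0
  have hf : ∀ i (h : i < 13), f i = (σ ⟨i, h⟩).val := fun i h => by simp [f, h]
  have hlt : ∀ i < 13, f i < 13 := fun i h => by rw [hf i h]; exact (σ ⟨i, h⟩).isLt
  have hv : ∀ v : Fin 13, f v.val = (σ v).val := fun v => hf v.val v.isLt
  have hinj : ∀ i < 13, ∀ j < 13, i ≠ j → f i ≠ f j := by
    intro i hi j hj hij he
    rw [hf i hi, hf j hj] at he
    have := σ.injective (Fin.ext he)
    exact hij (by simpa using this)
  have hadj : ∀ i < 13, ∀ j < 13, i ≠ j → A (f i) (f j) = !(A i j) := by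
    intro i hi j hj hij
    have h := (σ.map_rel_iff (a := ⟨i, hi⟩) (b := ⟨j, hj⟩))
    rw [SimpleGraph.compl_adj] at h
    have hne : σ ⟨i, hi⟩ ≠ σ ⟨j, hj⟩ := fun e => hij (by simpa using σ.injective e)
    have h' : ¬ (A (f i) (f j) = true) ↔ A i j = true := by
      rw [hf i hi, hf j hj]
      constructor
      · intro h2
        exact h.1 ⟨hne, h2⟩
      · intro h2
        exact (h.2 h2).2
    cases h5 : A i j <;> cases h6 : A (f i) (f j) <;> simp_all
  obtain ⟨i, hi, h1, h2⟩ := srch_sound f hlt hinj hadj 13 0 rfl srch_true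
  refine ⟨⟨i, hi⟩, ?_, ?_⟩
  · intro h
    apply h1
    have := congrArg Fin.val h
    rw [← hv, ← hv, ← hv, ← hv] at this
    exact this
  · apply Fin.ext
    rw [← hv, ← hv, ← hv, ← hv, ← hv, ← hv, ← hv, ← hv]
    exact h2

end Pool.Agent.TH649.Kotzig
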